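import Pool.Agent.U354.Sqf.Func
import Pool.Agent.U354.Sqf.Series

/-!
# Generic ideals of the square-free algebra: the expected Hilbert series fails

Two generic linear forms in the square-free algebra on `n = 2k+1 ≥ 7` variables do not span the
part of degree `k`, although the expected series stops before degree `k`.
-/

set_option autoImplicit false

open Finset MvPolynomial

namespace Pool.Agent.Results.MP_3acc10_al.TwoLinearForms

open Pool.Agent.U354.Sqf

universe u

/-- The ideal `(x_1², …, x_n²)`. -/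
noncomputable abbrev SqIdeal (n : ℕ) (K : Type u) [Field K] : Ideal (MvPolynomial (Fin n) K) :=
  Ideal.span (Set.range fun i : Fin n => (X i : MvPolynomial (Fin n) K) ^ 2)

/-- The square-free algebra `K[x_1, …, x_n]/(x_1², …, x_n²)`. -/
abbrev Sq (n : ℕ) (K : Type u) [Field K] := MvPolynomial (Fin n) K ⧸ SqIdeal n K

/-- The square-free monomials of degree `d` in `n` variables. -/
abbrev Mon (n d : ℕ) := {S : Finset (Fin n) // S.card = d}

/-- The form of degree `d` in the square-free algebra with coefficients `c`. -/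
noncomputable def form {n : ℕ} {K : Type u} [Field K] {d : ℕ} (c : Mon n d → K) : Sq n K :=
  Ideal.Quotient.mk (SqIdeal n K) (∑ S : Mon n d, C (c S) * ∏ i ∈ S.1, X i)

/-- The ideal generated by the `r` forms of degrees `d 0, d 1, …` with coefficients `c`. -/
noncomputable def genIdeal {n r : ℕ} {K : Type u} [Field K] (d : Fin r → ℕ)
    (c : (Σ i : Fin r, Mon n (d i)) → K) : Ideal (Sq n K) :=
  Ideal.span (Set.range fun i : Fin r => form fun S => c ⟨i, S⟩)

/-- The part of degree `j` of the quotient of the square-free algebra by `I`. -/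
noncomputable def part {n : ℕ} {K : Type u} [Field K] (I : Ideal (Sq n K)) (j : ℕ) :
    Submodule K (Sq n K ⧸ I) :=
  (homogeneousSubmodule (Fin n) K j).map
    ((Ideal.Quotient.mkₐ K I).comp (Ideal.Quotient.mkₐ K (SqIdeal n K))).toLinearMap

/-- The Hilbert function of the quotient of the square-free algebra by `I`. -/
noncomputable def hilb {n : ℕ} {K : Type u} [Field K] (I : Ideal (Sq n K)) (j : ℕ) : ℕ :=
  Module.finrank K (part I j)

/-- The polynomial `(1+t)^n ∏ (1-t^(d_i))`. -/
noncomputable def series (n : ℕ) {r : ℕ} (d : Fin r → ℕ) : Polynomial ℤ :=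
  (1 + Polynomial.X) ^ n * ∏ i, (1 - Polynomial.X ^ d i)

/-- The coefficients of the truncation of a polynomial before its first nonpositive
coefficient. -/
noncomputable def trunc (p : Polynomial ℤ) (j : ℕ) : ℤ :=
  haveI := Classical.propDecidable (∀ i ≤ j, 0 < p.coeff i)
  if ∀ i ≤ j, 0 < p.coeff i then p.coeff j else 0

/-- A property holds for generic vectors: it holds on a nonempty Zariski open set (of the form
`F ≠ 0` with a nonzero polynomial `F`; the field will be infinite). -/
def Generic {σ : Type} {K : Type u} [Field K] (P : (σ → K) → Prop) : Prop :=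
  ∃ F : MvPolynomial σ K, F ≠ 0 ∧ ∀ c, eval c F ≠ 0 → P c

/-- The statement of Q1 over the field `K`. -/
def Q1 (K : Type u) [Field K] : Prop :=
  ∀ (n r : ℕ) (d : Fin r → ℕ), 1 ≤ n → 1 ≤ r → (∀ i, 1 ≤ d i) →
    Generic (K := K) fun c : (Σ i : Fin r, Mon n (d i)) → K =>
      ∀ j, (hilb (genIdeal d c) j : ℤ) = trunc (series n d) j

section
variable {n : ℕ} {K : Type u} [Field K]

/-- The monomials of a form of degree `d` have degree `d`. -/
lemma form_support {d : ℕ} (c : Mon n d → K) (v : Fin n →₀ ℕ)
    (hv : v ∈ (∑ S : Mon n d, C (c S) * ∏ i ∈ S.1, X i : MvPolynomial (Fin n) K).support) :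
    v.degree = d := by
  have h : (∑ S : Mon n d, C (c S) * ∏ i ∈ S.1, X i : MvPolynomial (Fin n) K).IsHomogeneous d := by
    refine IsHomogeneous.sum _ _ _ fun S _ => ?_
    have h1 : (∏ i ∈ S.1, X i : MvPolynomial (Fin n) K).IsHomogeneous (∑ i ∈ S.1, 1) :=
      IsHomogeneous.prod _ _ _ fun i _ => isHomogeneous_X K i
    have h2 : (∑ _i ∈ S.1, 1) = d := by simpa using S.2
    rw [h2] at h1
    have h3 := (isHomogeneous_C (Fin n) (c S)).mul h1
    rwa [zero_add] at h3
  have := h (mem_support_iff.1 hv)
  rw [← this, Finsupp.weight_apply, Finsupp.degree_apply]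
  simp [Finsupp.sum]

/-- A linear form. -/
lemma form_linear {d : ℕ} (hd : d = 1) (c : Mon n d → K) :
    (∑ S : Mon n d, C (c S) * ∏ i ∈ S.1, X i : MvPolynomial (Fin n) K) =
      ∑ i : Fin n, C (c ⟨{i}, by rw [hd]; exact card_singleton i⟩) * X i := by
  subst hd
  symm
  refine Finset.sum_bij (fun i _ => ⟨{i}, card_singleton i⟩) (fun i _ => Finset.mem_univ _)
    (fun i _ j _ h => ?_) (fun S _ => ?_) (fun i _ => ?_)
  · simpa using h
  · obtain ⟨i, hi⟩ := Finset.card_eq_one.1 S.2
    exact ⟨i, Finset.mem_univ _, Subtype.ext hi.symm⟩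
  · simp


/-- The functional vanishes on the ideal generated by polynomials whose monomial multiples it
kills. -/
lemma phi_ideal (a t : Fin n → K) (k : ℕ) (G : Set (MvPolynomial (Fin n) K))
    (hG : ∀ g ∈ G, ∀ u : Fin n →₀ ℕ, phi a t k (monomial u 1 * g) = 0)
    (x : MvPolynomial (Fin n) K) (hx : x ∈ Ideal.span G) : phi a t k x = 0 := by
  have key : ∀ H : MvPolynomial (Fin n) K, phi a t k (H * x) = 0 := by
    refine Submodule.span_induction (p := fun x _ => ∀ H : MvPolynomial (Fin n) K,
      phi a t k (H * x) = 0) (fun g hg H => phi_mul_eq_zero a t k g (hG g hg) H) (fun H => by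
        rw [mul_zero, map_zero]) (fun x y _ _ hx hy H => by
        rw [mul_add, map_add, hx, hy, add_zero]) (fun b x _ hx H => by
        rw [smul_eq_mul, ← mul_assoc]; exact hx _) hx
  have := key 1
  rwa [one_mul] at this

lemma part_fg (I : Ideal (Sq n K)) (j : ℕ) : Module.Finite K (part I j) := by
  rw [Module.Finite.iff_fg]
  exact (homogeneousSubmodule_fg (Fin n) K j).map _

/-- A nonzero class gives a positive value of the Hilbert function. -/
lemma hilb_pos (I : Ideal (Sq n K)) (j : ℕ) (m : MvPolynomial (Fin n) K)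
    (hm : m.IsHomogeneous j) (h : Ideal.Quotient.mk (SqIdeal n K) m ∉ I) : 1 ≤ hilb I j := by
  have := part_fg I j
  have hx : Ideal.Quotient.mk I (Ideal.Quotient.mk (SqIdeal n K) m) ∈ part I j :=
    ⟨m, (mem_homogeneousSubmodule j m).2 hm, rfl⟩
  have : Nontrivial (part I j) := by
    refine ⟨⟨⟨_, hx⟩, 0, fun h0 => h ?_⟩⟩
    exact Ideal.Quotient.eq_zero_iff_mem.1 (congrArg Subtype.val h0)
  exact Module.finrank_pos

/-- The family of counterexamples. -/
lemma family (K : Type u) [Field K] (k r : ℕ) (d : Fin r → ℕ) (i₀ i₁ : Fin r)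
    (h01 : i₀ ≠ i₁) (h0 : d i₀ = 1) (h1 : d i₁ = 1)
    (hd : ∀ i, i ≠ i₀ → i ≠ i₁ → k < d i) :
    Generic (K := K) (fun c : (Σ i : Fin r, Mon (2 * k + 1) (d i)) → K =>
      1 ≤ hilb (genIdeal d c) k) := by
  classical
  have e0 : ∀ i : Fin (2 * k + 1), ({i} : Finset (Fin (2 * k + 1))).card = d i₀ := fun i => by
    rw [h0]; exact card_singleton i
  have e1 : ∀ i : Fin (2 * k + 1), ({i} : Finset (Fin (2 * k + 1))).card = d i₁ := fun i => by
    rw [h1]; exact card_singleton i
  set α : Fin (2 * k + 1) → (Σ i : Fin r, Mon (2 * k + 1) (d i)) := fun i => ⟨i₀, ⟨{i}, e0 i⟩⟩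
    with hα
  set β : Fin (2 * k + 1) → (Σ i : Fin r, Mon (2 * k + 1) (d i)) := fun i => ⟨i₁, ⟨{i}, e1 i⟩⟩
    with hβ
  have hαβ : ∀ i j, α i ≠ β j := fun i j h => h01 (congrArg Sigma.fst h)
  have hαi : Function.Injective α := by
    intro i j h
    simpa [hα] using h
  have hβi : Function.Injective β := by
    intro i j h
    simpa [hβ] using h
  refine ⟨(∏ i, X (α i)) * ∏ i, ∏ j ∈ Finset.univ.erase i, (X (α i) * X (β j) -
    X (α j) * X (β i)), ?_, ?_⟩
  · refine mul_ne_zero (Finset.prod_ne_zero_iff.2 fun i _ => X_ne_zero _)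
      (Finset.prod_ne_zero_iff.2 fun i _ => Finset.prod_ne_zero_iff.2 fun j hj h => ?_)
    have hij : j ≠ i := (Finset.mem_erase.1 hj).1
    have h2 := congrArg (eval (fun s => if s = α i ∨ s = β j then (1 : K) else 0)) h
    rw [map_sub, map_mul, map_mul, eval_X, eval_X, eval_X, eval_X, map_zero,
      if_pos (Or.inl rfl), if_pos (Or.inr rfl), if_neg, zero_mul] at h2
    · simp at h2
    · rintro (h3 | h3)
      · exact hij (hαi h3)
      · exact hαβ _ _ h3
  · intro c hc
    rw [map_mul, map_prod, map_prod] at hc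
    have hc1 := left_ne_zero_of_mul hc
    have hc2 := right_ne_zero_of_mul hc
    rw [Finset.prod_ne_zero_iff] at hc1 hc2
    set a : Fin (2 * k + 1) → K := fun i => c (α i) with ha'
    set t : Fin (2 * k + 1) → K := fun i => c (β i) / c (α i) with ht'
    have ha : ∀ i, a i ≠ 0 := fun i => by simpa using hc1 i (Finset.mem_univ i)
    have ht : Function.Injective t := by
      intro i j h
      by_contra hij
      have h3 := hc2 i (Finset.mem_univ i)
      rw [map_prod, Finset.prod_ne_zero_iff] at h3
      have h4 := h3 j (Finset.mem_erase.2 ⟨fun h => hij h.symm, Finset.mem_univ j⟩)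
      apply h4
      rw [map_sub, map_mul, map_mul, eval_X, eval_X, eval_X, eval_X]
      simp only [ht'] at h
      rw [div_eq_div_iff (ha i) (ha j)] at h
      linear_combination -h
    obtain ⟨S, -, hS⟩ := Finset.exists_subset_card_eq (s := (Finset.univ : Finset
      (Fin (2 * k + 1)))) (n := k) (by rw [Finset.card_univ, Fintype.card_fin]; omega)
    refine hilb_pos _ k (∏ i ∈ S, X i) ?_ ?_
    · have := IsHomogeneous.prod S (fun i => (X i : MvPolynomial (Fin (2 * k + 1)) K)) (fun _ => 1)
        fun i _ => isHomogeneous_X K i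
      rwa [Finset.sum_const, smul_eq_mul, mul_one, hS] at this
    · intro hmem
      set L : Fin r → MvPolynomial (Fin (2 * k + 1)) K := fun i =>
        ∑ S : Mon (2 * k + 1) (d i), C (c ⟨i, S⟩) * ∏ j ∈ S.1, X j with hL
      have h5 : genIdeal d c = (Ideal.span (Set.range L)).map
          (Ideal.Quotient.mk (SqIdeal (2 * k + 1) K)) := by
        rw [Ideal.map_span, ← Set.range_comp]
        rfl
      rw [h5, ← Ideal.mem_comap, Ideal.comap_map_of_surjective' _ Ideal.Quotient.mk_surjective,
        Ideal.mk_ker, ← Ideal.span_union] at hmem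
      refine phi_ne ha ht S hS (phi_ideal a t k _ ?_ _ hmem)
      rintro g (⟨i, rfl⟩ | ⟨i, rfl⟩) u
      · by_cases hi0 : i = i₀
        · subst hi0
          have h6 := phi_linear ha ht (k := k) 1 (by simp) (by omega) u
          simp only [Polynomial.eval_one, mul_one] at h6
          simp only [hL]
          rw [form_linear h0]
          exact h6
        · by_cases hi1 : i = i₁
          · subst hi1
            have h6 := phi_linear ha ht (k := k) Polynomial.X (by simp) (by omega) u
            simp only [Polynomial.eval_X] at h6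
            simp only [hL]
            rw [form_linear h1]
            have h7 : ∀ s, a s * t s = c (β s) := fun s => by
              simp only [ha', ht']
              exact mul_div_cancel₀ _ (ha s)
            simp only [h7] at h6
            exact h6
          · refine phi_high a t k _ (fun v hv => ?_) u
            rw [form_support _ v hv]
            exact hd i hi0 hi1
      · exact phi_sq a t k i u

lemma trunc_zero (k r : ℕ) (d : Fin r → ℕ) (i₀ i₁ : Fin r)
    (hk : 3 ≤ k) (h01 : i₀ ≠ i₁) (h0 : d i₀ = 1) (h1 : d i₁ = 1)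
    (hd : ∀ i, i ≠ i₀ → i ≠ i₁ → k < d i) : trunc (series (2 * k + 1) d) k = 0 := by
  unfold trunc
  rw [if_neg]
  intro h
  have h2 := h k le_rfl
  have h3 := coeff_nonpos d k i₀ i₁ hk h01 h0 h1 hd
  unfold series at h2
  omega

/-- A nonzero polynomial over an infinite field has a nonzero value. -/
lemma exists_eval_ne {σ : Type} (K : Type u) [Field K] [Infinite K] (F : MvPolynomial σ K)
    (hF : F ≠ 0) : ∃ c, eval c F ≠ 0 := by
  by_contra h
  push Not at h
  exact hF (MvPolynomial.funext fun c => by rw [h c, map_zero])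

end

/-- **The answer to Q1 is no, over every infinite field.** More precisely: let `n = 2k+1` with
`k ≥ 3` and let the degrees be `1, 1` and any further degrees larger than `k` (for instance
`n = 7` and two linear forms). Then the quotient of the square-free algebra by a generic ideal
with generators of these degrees has a nonzero part of degree `k`, while the expected truncated
series has no term of degree `k`. -/
theorem result :
    (∀ (K : Type u) [Field K] [Infinite K], ¬ Q1 K) ∧
    (∀ (K : Type u) [Field K] [Infinite K] (k r : ℕ) (d : Fin r → ℕ) (i₀ i₁ : Fin r),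
      3 ≤ k → i₀ ≠ i₁ → d i₀ = 1 → d i₁ = 1 → (∀ i, i ≠ i₀ → i ≠ i₁ → k < d i) →
      Generic (K := K) (fun c : (Σ i : Fin r, Mon (2 * k + 1) (d i)) → K =>
        1 ≤ hilb (genIdeal d c) k) ∧ trunc (series (2 * k + 1) d) k = 0) := by
  refine ⟨fun K _ _ h => ?_, fun K _ _ k r d i₀ i₁ hk h01 h0 h1 hd =>
    ⟨family K k r d i₀ i₁ h01 h0 h1 hd, trunc_zero k r d i₀ i₁ hk h01 h0 h1 hd⟩⟩
  have hd : ∀ i : Fin 2, i ≠ 0 → i ≠ 1 → 3 < (fun _ : Fin 2 => 1) i := by
    intro i h0 h1
    omega
  obtain ⟨F, hF, hF'⟩ := h (2 * 3 + 1) 2 (fun _ => 1) (by norm_num) (by norm_num) fun _ => le_rfl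
  obtain ⟨G, hG, hG'⟩ := family K 3 2 (fun _ => 1) 0 1 (by decide) rfl rfl hd
  obtain ⟨c, hc⟩ := exists_eval_ne K (F * G) (mul_ne_zero hF hG)
  rw [map_mul] at hc
  have h1 := hF' c (left_ne_zero_of_mul hc) 3
  have h2 := hG' c (right_ne_zero_of_mul hc)
  rw [trunc_zero 3 2 (fun _ => 1) 0 1 le_rfl (by decide) rfl rfl hd] at h1
  omega

end Pool.Agent.Results.MP_3acc10_al.TwoLinearForms
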